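import Pool.Agent.H8.TX.Targets

/-!
# Representation of a rational map by forms of small degree
-/

set_option autoImplicit false

open MvPolynomial
open Pool.Agent.H12.ZD (pmap)
open Pool.Agent.H18.HIT Pool.Agent.H18.HX Pool.Agent.H18.VZ
open Pool.Agent.H8.TX

namespace Pool.Agent.H49.TX

section hom

variable {k : Type} [Field k] {n : ℕ}

theorem hc_mul {g q : MvPolynomial (Fin n) k} {a : ℕ} (hg : g.IsHomogeneous a) (m : ℕ) :
    homogeneousComponent (m + a) (q * g) = homogeneousComponent m q * g := by
  have h1 : homogeneousComponent (m + a) (q * g) =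
      ∑ i ∈ Finset.range (q.totalDegree + 1),
        homogeneousComponent (m + a) (homogeneousComponent i q * g) := by
    rw [← map_sum, ← Finset.sum_mul, sum_homogeneousComponent]
  have h2 : ∀ i, homogeneousComponent (m + a) (homogeneousComponent i q * g) =
      if m = i then homogeneousComponent i q * g else 0 := by
    intro i
    have h3 : homogeneousComponent i q * g ∈ homogeneousSubmodule (Fin n) k (i + a) :=
      (homogeneousComponent_isHomogeneous i q).mul hg
    rw [homogeneousComponent_of_mem h3]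
    by_cases h : m = i
    · rw [if_pos h, if_pos (by rw [h])]
    · rw [if_neg h, if_neg (by omega)]
  rw [h1, Finset.sum_congr rfl fun i _ => h2 i, Finset.sum_ite_eq]
  split_ifs with h
  · rfl
  · rw [homogeneousComponent_eq_zero m q (by
      rw [Finset.mem_range] at h
      omega), zero_mul]

theorem dvd_hc {P f : MvPolynomial (Fin n) k} {r : ℕ} (hP : P.IsHomogeneous r) (h : P ∣ f)
    (m : ℕ) : P ∣ homogeneousComponent m f := by
  obtain ⟨g, rfl⟩ := h
  by_cases hm : r ≤ m
  · obtain ⟨l, rfl⟩ := Nat.exists_eq_add_of_le' hm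
    rw [mul_comm, hc_mul hP]
    exact Dvd.intro_left _ rfl
  · have h1 : homogeneousComponent m (P * g) = ∑ i ∈ Finset.range (g.totalDegree + 1),
        homogeneousComponent m (P * homogeneousComponent i g) := by
      rw [← map_sum, ← Finset.mul_sum, sum_homogeneousComponent]
    rw [h1]
    refine Finset.dvd_sum fun i _ => ?_
    have h3 : P * homogeneousComponent i g ∈ homogeneousSubmodule (Fin n) k (r + i) :=
      hP.mul (homogeneousComponent_isHomogeneous i g)
    rw [homogeneousComponent_of_mem h3, if_neg (by omega)]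
    exact dvd_zero P

end hom

section field

variable {k : Type} [Field k] {N : ℕ}

theorem fse_up (c : Po N k) : finSuccEquiv k N (up c) = Polynomial.C c := by
  unfold up
  induction c using MvPolynomial.induction_on with
  | C a => rw [rename_C, finSuccEquiv_apply]; simp
  | add p q hp hq => rw [map_add, map_add, hp, hq, Polynomial.C_add]
  | mul_X p l hp => rw [map_mul, map_mul, hp, rename_X, finSuccEquiv_X_succ, Polynomial.C_mul]

theorem fse_pderiv (P : Po (N + 1) k) :
    finSuccEquiv k N (pderiv 0 P) = Polynomial.derivative (finSuccEquiv k N P) := by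
  induction P using MvPolynomial.induction_on with
  | C a => simp [finSuccEquiv_apply]
  | add p q hp hq => rw [map_add, map_add, map_add, map_add, hp, hq]
  | mul_X p l hp =>
    rw [Derivation.leibniz, smul_eq_mul, smul_eq_mul, map_add, map_mul, map_mul, hp, map_mul,
      Polynomial.derivative_mul]
    refine Fin.cases ?_ (fun l' => ?_) l
    · rw [pderiv_X_self, map_one, finSuccEquiv_X_zero, Polynomial.derivative_X]
      ring
    · rw [pderiv_X_of_ne (Fin.succ_ne_zero l'), map_zero, finSuccEquiv_X_succ,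
        Polynomial.derivative_C]
      ring

/-- the field of rational functions -/
theorem exists_phi [CharZero k] {P : Po (N + 1) k} {r : ℕ} (h : Hyp P r) :
    ∃ (M : Type) (_ : Field M) (_ : Algebra (Po N k) M) (φ : Po (N + 1) k →+* M),
      (∀ q, φ q = 0 ↔ P ∣ q) ∧ (∀ c : Po N k, φ (up c) = algebraMap (Po N k) M c) ∧
      φ (pderiv 0 P) ≠ 0 ∧
      ∀ z : M, IsIntegral (Po N k) z → ∃ q, φ q = φ (pderiv 0 P) * z := by
  set P0 : Polynomial (Po N k) := finSuccEquiv k N P with hP0
  have hm : P0.Monic := h.mon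
  have hirr : Irreducible P0 := (MulEquiv.irreducible_iff (finSuccEquiv k N)).2 h.irr
  set PL : Polynomial (FractionRing (Po N k)) :=
    P0.map (algebraMap (Po N k) (FractionRing (Po N k))) with hPLd
  have hPL : Irreducible PL :=
    (hm.irreducible_iff_irreducible_map_fraction_map (K := FractionRing (Po N k))).1 hirr
  haveI : Fact (Irreducible PL) := ⟨hPL⟩
  have hmL : PL.Monic := hm.map _
  have hinj : Function.Injective (algebraMap (Po N k) (FractionRing (Po N k))) :=
    IsFractionRing.injective _ _
  set x : AdjoinRoot PL := AdjoinRoot.root PL with hx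
  let φ : Po (N + 1) k →+* AdjoinRoot PL :=
    (Polynomial.aeval (R := Po N k) x).toRingHom.comp
      (finSuccEquiv k N : Po (N + 1) k →+* Polynomial (Po N k))
  have hφ : ∀ q, φ q = Polynomial.aeval x (finSuccEquiv k N q) := fun q => rfl
  have hae : ∀ q : Polynomial (Po N k), Polynomial.aeval x q =
      Polynomial.aeval x (q.map (algebraMap (Po N k) (FractionRing (Po N k)))) :=
    fun q => (Polynomial.aeval_map_algebraMap _ x q).symm
  have hmin : minpoly (FractionRing (Po N k)) x = PL := by
    rw [hx, AdjoinRoot.minpoly_root hPL.ne_zero, hmL.leadingCoeff, inv_one, Polynomial.C_1,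
      mul_one]
  have hfin : FiniteDimensional (FractionRing (Po N k)) (AdjoinRoot PL) :=
    (AdjoinRoot.powerBasis hPL.ne_zero).finite
  have hint : IsIntegral (Po N k) x := ⟨P0, hm, by
    have h1 := hae P0
    rw [hx, AdjoinRoot.aeval_eq, AdjoinRoot.mk_self] at h1
    exact h1⟩
  have hder : φ (pderiv 0 P) =
      Polynomial.aeval x (Polynomial.derivative (minpoly (FractionRing (Po N k)) x)) := by
    rw [hφ, fse_pderiv, hae, hmin, ← Polynomial.derivative_map]
  have hd0 : φ (pderiv 0 P) ≠ 0 := by
    rw [hder]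
    have hsep : (minpoly (FractionRing (Po N k)) x).Separable :=
      (minpoly.irreducible hint.tower_top).separable
    exact hsep.aeval_derivative_ne_zero (minpoly.aeval _ x)
  refine ⟨AdjoinRoot PL, inferInstance, inferInstance, φ, ?_, ?_, hd0, ?_⟩
  · intro q
    rw [hφ, hae, hx, AdjoinRoot.aeval_eq, AdjoinRoot.mk_eq_zero, hPLd,
      Polynomial.map_dvd_map _ hinj hm, hP0]
    exact map_dvd_iff (finSuccEquiv k N)
  · intro c
    rw [hφ, fse_up, Polynomial.aeval_C]
  · intro z hz
    have h1 := traceForm_dualSubmodule_adjoin (Po N k) (FractionRing (Po N k))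
      (AdjoinRoot.adjoinRoot_eq_top (f := PL)) hint
    have h2 : z ∈ (Algebra.traceForm (FractionRing (Po N k)) (AdjoinRoot PL)).dualSubmodule
        (Subalgebra.toSubmodule (Algebra.adjoin (Po N k) {x})) := by
      rw [LinearMap.BilinForm.mem_dualSubmodule]
      intro y hy
      rw [Algebra.traceForm_apply]
      have h3 : IsIntegral (Po N k) y := by
        rw [Subalgebra.mem_toSubmodule] at hy
        exact IsIntegral.of_mem_of_fg _ (hint.fg_adjoin_singleton) y hy
      have h4 : IsIntegral (Po N k)
          (Algebra.trace (FractionRing (Po N k)) (AdjoinRoot PL) (z * y)) :=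
        Algebra.isIntegral_trace (hz.mul h3)
      obtain ⟨w, hw⟩ := IsIntegrallyClosed.isIntegral_iff.1 h4
      rw [Submodule.mem_one]
      exact ⟨w, hw⟩
    rw [h1] at h2
    rw [Submodule.mem_smul_pointwise_iff_exists] at h2
    obtain ⟨y, hy, hyz⟩ := h2
    rw [Subalgebra.mem_toSubmodule, Algebra.adjoin_singleton_eq_range_aeval] at hy
    obtain ⟨q, hq⟩ := hy
    refine ⟨(finSuccEquiv k N).symm q, ?_⟩
    rw [hφ, AlgEquiv.apply_symm_apply, hder, ← hyz, smul_eq_mul]
    rw [hder] at hd0
    rw [mul_inv_cancel_left₀ hd0]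
    exact hq

end field

theorem pf_AMX : T_AMX := by
  intro k _ _ r a A P p hP hp hp1 hN
  obtain ⟨M, _, _, φ, hφ0, hφu, hd0, hφi⟩ := exists_phi hP
  choose D n Cf B hDA hNp using hN
  have hPh : P.IsHomogeneous r := hP.hom
  have hφ1 : φ (p 1) ≠ 0 := fun h => hp1 ((hφ0 _).1 h)
  have hdh : (pderiv 0 P).IsHomogeneous (r - 1) := hPh.pderiv
  -- leading coefficients
  have hφc : ∀ i, φ (up (Cf i (n i))) ≠ 0 := by
    intro i h
    obtain ⟨d, hd⟩ := (hφ0 _).1 h
    have h1 := congrArg (finSuccEquiv k 4) hd
    rw [fse_up, map_mul] at h1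
    have hm : (finSuccEquiv k 4 P).Monic := hP.mon
    have hC : Polynomial.C (Cf i (n i)) ≠ 0 := Polynomial.C_ne_zero.2 (hNp i).top
    have hd0' : finSuccEquiv k 4 d ≠ 0 := by
      intro h0
      rw [h0, mul_zero] at h1
      exact hC h1
    have h2 := congrArg Polynomial.natDegree h1
    rw [Polynomial.natDegree_C, Polynomial.natDegree_mul hm.ne_zero hd0'] at h2
    have h3 : (finSuccEquiv k 4 P).natDegree = 0 := by omega
    have h4 : finSuccEquiv k 4 P = 1 := hm.natDegree_eq_zero.1 h3
    have h5 : P = 1 := (finSuccEquiv k 4).injective (by rw [h4, map_one])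
    exact hP.irr.not_isUnit (by rw [h5]; exact isUnit_one)
  have hq : ∀ i, ∃ q : Po 5 k, q.IsHomogeneous (r - 1 + D i) ∧
      φ q * φ (p 1) = φ (pderiv 0 P) * φ (up (Cf i (n i))) * φ (p i) := by
    intro i
    set Φ : Polynomial (Po 4 k) := ∑ j ∈ Finset.range (n i + 1),
      Polynomial.C (Cf i j) * Polynomial.X ^ j with hΦ
    set ψ : M := φ (p i) / φ (p 1) with hψ
    have hcoef : Φ.coeff (n i) = Cf i (n i) := by
      rw [hΦ, Polynomial.finset_sum_coeff, Finset.sum_eq_single (n i)]
      · rw [Polynomial.coeff_C_mul_X_pow, if_pos rfl]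
      · intro j _ hj
        rw [Polynomial.coeff_C_mul_X_pow, if_neg (Ne.symm hj)]
      · intro h
        exact absurd (Finset.mem_range.2 (Nat.lt_succ_self _)) h
    have hdeg : Φ.natDegree ≤ n i := by
      refine Polynomial.natDegree_sum_le_of_forall_le _ _ fun j hj => ?_
      rw [Finset.mem_range] at hj
      exact (Polynomial.natDegree_C_mul_X_pow_le _ _).trans (by omega)
    have hlead : Φ.leadingCoeff = Cf i (n i) := by
      have h1 : Φ.natDegree = n i := Polynomial.natDegree_eq_of_le_of_coeff_ne_zero hdeg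
        (by rw [hcoef]; exact (hNp i).top)
      unfold Polynomial.leadingCoeff
      rw [h1, hcoef]
    have hroot : Polynomial.aeval ψ Φ = 0 := by
      have h1 := (hφ0 _).2 (hNp i).rel
      rw [map_sum] at h1
      have h2 : Polynomial.aeval ψ Φ * φ (p 1) ^ n i = 0 := by
        rw [hΦ, map_sum, Finset.sum_mul, ← h1]
        refine Finset.sum_congr rfl fun j hj => ?_
        rw [Finset.mem_range] at hj
        rw [map_mul, map_pow, Polynomial.aeval_C, Polynomial.aeval_X, map_mul, map_mul, map_pow,
          map_pow, hφu, hψ, div_pow]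
        have h3 : φ (p 1) ^ n i = φ (p 1) ^ j * φ (p 1) ^ (n i - j) := by
          rw [← pow_add]
          congr 1
          omega
        rw [h3]
        field_simp
      exact (mul_eq_zero.1 h2).resolve_right (pow_ne_zero _ hφ1)
    obtain ⟨q0, hq0⟩ := hφi _ (isIntegral_leadingCoeff_smul Φ ψ hroot)
    rw [hlead, Algebra.smul_def, ← hφu] at hq0
    have h1 : φ q0 * φ (p 1) = φ (pderiv 0 P) * φ (up (Cf i (n i))) * φ (p i) := by
      rw [hq0, hψ]
      field_simp
    have h2 : P ∣ q0 * p 1 - pderiv 0 P * up (Cf i (n i)) * p i := by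
      rw [← hφ0, map_sub, map_mul, map_mul, map_mul, h1, sub_self]
    have h3 := dvd_hc hPh h2 (r - 1 + D i + a)
    have h4 : pderiv 0 P * up (Cf i (n i)) * p i ∈
        homogeneousSubmodule (Fin 5) k (r - 1 + D i + a) :=
      (hdh.mul ((hNp i).hom (n i)).rename_isHomogeneous).mul (hp i)
    rw [map_sub, hc_mul (hp 1), homogeneousComponent_of_mem h4, if_pos rfl, ← hφ0, map_sub,
      map_mul, map_mul, map_mul, sub_eq_zero] at h3
    exact ⟨_, homogeneousComponent_isHomogeneous _ _, h3⟩
  choose q hqh hqe using hq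
  set K : M := (∏ j, φ (up (Cf j (n j)))) * φ (pderiv 0 P) with hK
  have hG : ∀ i, φ ((∏ j ∈ Finset.univ.erase i, up (Cf j (n j))) * q i) * φ (p 1) =
      K * φ (p i) := by
    intro i
    rw [map_mul, map_prod, mul_assoc, hqe, hK, ← Finset.mul_prod_erase Finset.univ
      (fun j => φ (up (Cf j (n j)))) (Finset.mem_univ i)]
    ring
  refine ⟨fun i => (∏ j ∈ Finset.univ.erase i, up (Cf j (n j))) * q i, r - 1 + ∑ i, D i,
    ?_, ?_, ⟨1, ?_⟩, ?_⟩
  · intro i
    have h1 : (∏ j ∈ Finset.univ.erase i, up (Cf j (n j))).IsHomogeneous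
        (∑ j ∈ Finset.univ.erase i, D j) :=
      IsHomogeneous.prod _ _ _ fun j _ => ((hNp j).hom (n j)).rename_isHomogeneous
    have h2 := h1.mul (hqh i)
    have h3 : ∑ j ∈ Finset.univ.erase i, D j + (r - 1 + D i) = r - 1 + ∑ i, D i := by
      rw [← Finset.add_sum_erase Finset.univ D (Finset.mem_univ i)]
      omega
    rw [h3] at h2
    exact h2
  · have h1 : ∑ i, D i ≤ 5 * A := by
      have h2 := Finset.sum_le_card_nsmul Finset.univ D A fun i _ => hDA i
      rw [Finset.card_univ, Fintype.card_fin, smul_eq_mul] at h2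
      exact h2
    have h2 : r ≤ r * r := Nat.le_mul_self r
    omega
  · intro h
    have h1 := hG 1
    rw [(hφ0 _).2 h, zero_mul] at h1
    have h2 : K ≠ 0 := mul_ne_zero (Finset.prod_ne_zero_iff.2 fun j _ => hφc j) hd0
    exact mul_ne_zero h2 hφ1 h1.symm
  · intro i j
    rw [← hφ0, map_sub, map_mul, map_mul (f := φ) (p j)]
    have h1 : (φ (p i) * φ ((∏ l ∈ Finset.univ.erase j, up (Cf l (n l))) * q j) -
        φ (p j) * φ ((∏ l ∈ Finset.univ.erase i, up (Cf l (n l))) * q i)) * φ (p 1) = 0 := by
      have h2 := hG i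
      have h3 := hG j
      linear_combination φ (p i) * h3 - φ (p j) * h2
    exact (mul_eq_zero.1 h1).resolve_right hφ1

end Pool.Agent.H49.TX
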